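import Pool.Agent.helper19.MX.SpecA

set_option autoImplicit false

/-! # MP_a875de, row ADD -/

namespace MX

open Pool.Agent.helper53.AU AN
open scoped Classical Topology

lemma ADD_icc {L : Type} [Field L] (f : ℕ → L) (h : ℕ) :
    ∑ i ∈ Finset.Icc 1 h, f i = ∑ i ∈ Finset.range h, f (i + 1) := by
  induction h with
  | zero => simp
  | succ h ih => rw [Finset.sum_Icc_succ_top (by omega), ih, Finset.sum_range_succ]

theorem ADD : ADD_stmt := by
  intro L _ _ h hh b
  refine ⟨?_, ?_⟩
  · intro X Y
    unfold PP
    rw [← Finset.sum_add_distrib]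
    apply Finset.sum_congr rfl
    intro i _
    rw [add_pow_char_pow, add_pow_char_pow]
    ring
  · intro X
    unfold PP
    rw [ADD_icc, Finset.sum_add_distrib, show 2 * h + 1 = (h + 1) + h from by omega,
      Finset.sum_range_add, Finset.sum_range_succ]
    have e1 : ∑ j ∈ Finset.range h, (if j < h then b (h - j) else if j = h then 0 else
        b (j - h) ^ (2 ^ (j - h))) * X ^ (2 ^ j) =
        ∑ i ∈ Finset.range h, b (i + 1) * X ^ (2 ^ (h - (i + 1))) := by
      rw [← Finset.sum_range_reflect]
      apply Finset.sum_congr rfl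
      intro j hj
      rw [Finset.mem_range] at hj
      rw [if_pos (by omega), show h - (h - 1 - j) = j + 1 from by omega,
        show h - 1 - j = h - (j + 1) from by omega]
    have e2 : ∑ j ∈ Finset.range h, (if h + 1 + j < h then b (h - (h + 1 + j)) else
        if h + 1 + j = h then 0 else b (h + 1 + j - h) ^ (2 ^ (h + 1 + j - h))) * X ^ (2 ^ (h + 1 + j)) =
        ∑ i ∈ Finset.range h, b (i + 1) ^ (2 ^ (i + 1)) * X ^ (2 ^ (h + (i + 1))) := by
      apply Finset.sum_congr rfl
      intro j hj
      rw [if_neg (by omega), if_neg (by omega), show h + 1 + j - h = j + 1 from by omega,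
        show h + 1 + j = h + (j + 1) from by omega]
    rw [e1, e2, if_neg (by omega), if_pos rfl, zero_mul, add_zero, add_comm]

end MX
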