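import Pool.Agent.helper19.MX.SpecA

set_option autoImplicit false

/-! # MP_a875de, row ADL -/

namespace MX

open Pool.Agent.helper53.AU AN
open scoped Classical Topology

theorem ADL : ADL_stmt := by
  intro L _ _
  refine ⟨?_, ?_⟩
  · intro h a d h1 hd ⟨h2, h3⟩
    refine ⟨?_, ?_⟩
    · have e : Ad a d (h + 1) = d * a h ^ 2 := by
        unfold Ad
        rw [if_pos (by omega), h3 (h + 1) (by omega), h3 (h + 1 + 1) (by omega),
          show h + 1 - 1 = h from by omega]
        simp
      rw [e]
      exact mul_ne_zero hd (pow_ne_zero 2 h2)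
    · intro i hi
      unfold Ad
      rw [h3 (i - 1) (by omega), h3 i (by omega), h3 (i + 1) (by omega)]
      simp
  · intro A T d
    funext i
    unfold sumT Ad
    rw [CharTwo.sum_sq, CharTwo.sum_sq, Finset.sum_add_distrib, Finset.sum_add_distrib,
      Finset.sum_add_distrib, Finset.sum_mul, Finset.sum_mul]
    congr 3
    split_ifs
    · rw [Finset.mul_sum]
    · exact Finset.sum_const_zero

end MX
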