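import Pool.Agent.helper19.MX.SpecA

set_option autoImplicit false

/-! # MP_a875de, row CFR -/

namespace MX

open Pool.Agent.helper53.AU AN
open scoped Classical Topology

theorem CFR (hCHO : CHO_stmt) (hCTH : CTH_stmt) : CFR_stmt := by
  intro L _ _ θ h b hb
  have h1 := hCHO L L (frobenius L 2) θ h b hb
  have h2 := hCTH L (frobenius L 2 θ) θ h _ h1
  have h3 : frobenius L 2 θ + θ ^ 2 + θ = θ := by
    rw [frobenius_def]
    have h5 : (2 : L) = 0 := CharTwo.two_eq_zero
    linear_combination θ ^ 2 * h5
  rw [h3] at h2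
  exact h2

end MX
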