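import Pool.Agent.helper19.MX.SpecA

set_option autoImplicit false

/-! # MP_a875de, row CH2 -/

namespace MX

open Pool.Agent.helper53.AU AN
open scoped Classical Topology

theorem CH2 : CH2_stmt := by
  intro K _ _ n hc
  have hn : 1 ≤ n := by
    rcases Nat.eq_zero_or_pos n with h | h
    · exfalso
      rw [h, pow_zero] at hc
      have h1 : 1 < Fintype.card K := Fintype.one_lt_card
      omega
    · exact h
  refine ⟨?_, hn⟩
  obtain ⟨p, hp⟩ := CharP.exists K
  obtain ⟨m, hp1, hm⟩ := FiniteField.card K p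
  have h1 : p ∣ 4 ^ n := by
    rw [← hc, hm]
    exact dvd_pow_self p m.ne_zero
  have h2 : p ∣ 4 := hp1.dvd_of_dvd_pow h1
  have h3 : p ∣ 2 ^ 2 := h2
  have h4 : p ∣ 2 := hp1.dvd_of_dvd_pow h3
  have h5 : p = 2 := (Nat.prime_dvd_prime_iff_eq hp1 Nat.prime_two).mp h4
  rw [← h5]
  exact hp

end MX
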