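import Pool.Agent.helper19.MX.SpecA

set_option autoImplicit false

/-! # MP_a875de, row CNE -/

namespace MX

open Pool.Agent.helper53.AU AN
open scoped Classical Topology

theorem CNE (hCNG : CNG_stmt) : CNE_stmt := by
  intro L _ θ h b hb
  induction hb with
  | base b v r y h1 h2 h3 h4 =>
    rw [h2]
    exact pow_ne_zero 3 h1
  | step h b c d β y h1 h2 h3 h4 h5 ih =>
    have h6 : 1 ≤ h := (hCNG L θ h b h1).1
    rw [h5 (h + 1) (le_refl _)]
    have e : Ud h b d (h + 1) = b h * d := by
      unfold Ud cut
      rw [if_neg (by omega), if_pos (by omega), if_pos (by omega), if_neg (by omega)]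
      rw [show h + 1 - 1 = h from by omega, show h + 1 - (h + 1) = 0 from by omega]
      simp
    rw [e]
    exact mul_ne_zero ih h2

end MX
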