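import Pool.Agent.helper19.MX.SpecA

set_option autoImplicit false

/-! # MP_a875de, row CNG -/

namespace MX

open Pool.Agent.helper53.AU AN
open scoped Classical Topology

lemma CNG_cut {L : Type} [Field L] (h : ℕ) (b c : ℕ → L) (hc : ∀ i, i ≤ h → c i = b i) :
    cut h c = cut h b := by
  funext i
  unfold cut
  split_ifs with h1
  · exact hc i h1
  · rfl

theorem CNG : CNG_stmt := by
  intro L _ θ h b hb
  cases hb with
  | base b v r y h1 h2 h3 h4 =>
    refine ⟨le_refl 1, ?_⟩
    intro c hc
    exact Cert.base c v r y h1 (by rw [hc 1 (le_refl 1), h2]) (by rw [hc 0 (Nat.zero_le 1), h3]) h4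
  | step h b c d β y h1 h2 h3 h4 h5 =>
    refine ⟨by omega, ?_⟩
    intro c' hc'
    exact Cert.step h b c' d β y h1 h2 h3 h4 (fun i hi => by rw [hc' i hi, h5 i hi])

end MX
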