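import Pool.Agent.helper19.MX.SpecA

set_option autoImplicit false

/-! # MP_a875de, row CTH -/

namespace MX

open Pool.Agent.helper53.AU AN
open scoped Classical Topology

theorem CTH : CTH_stmt := by
  intro L _ _ θ t h b hb
  induction hb with
  | base b v r y h1 h2 h3 h4 =>
    refine Cert.base b v r (y + t) h1 h2 h3 ?_
    have h5 : (2 : L) = 0 := CharTwo.two_eq_zero
    linear_combination h4 + y * t * h5
  | step h b c d β y h1 h2 h3 h4 h5 ih =>
    exact Cert.step h b c d β y ih h2 h3 h4 h5

end MX
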