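import Pool.Agent.helper19.MX.SpecA

set_option autoImplicit false

/-! # MP_a875de, row GAL -/

namespace MX

open Pool.Agent.helper53.AU AN
open scoped Classical Topology

theorem GAL (hGAS : GAS_stmt) (hGPS : GPS_stmt) : GAL_stmt := by
  intro L _ _ _ _ _ hH hN θ m hθ g
  induction g using Nat.strong_induction_on with
  | _ g ih =>
    rcases Nat.eq_zero_or_pos g with h0 | hpos
    · refine ⟨0, fun _ _ => 0, fun _ => 0, ⟨?_, ?_⟩, ?_⟩
      · intro T hT hT2
        exact absurd (Finset.subset_empty.mp (by simpa using hT)) hT2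
      · intro T hT hT2
        exact absurd (Finset.subset_empty.mp (by simpa using hT)) hT2
      · unfold GG
        rw [h0]
        rfl
    · rcases Nat.even_or_odd' g with ⟨g', hg | hg⟩
      · obtain ⟨r, A, lev, h1, h2⟩ := ih g' (by omega)
        obtain ⟨A', lev', h3, h4⟩ := hGPS L hH hN θ r A lev h1
        exact ⟨r, A', lev', h3, by rw [h4, h2, hg]⟩
      · obtain ⟨r, A, lev, h1, h2⟩ := ih g' (by omega)
        obtain ⟨A', lev', h3, h4⟩ := hGAS L hH hN θ m hθ r A lev h1
        exact ⟨r + 1, A', lev', h3, by rw [h4, h2, hg]⟩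

end MX
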