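import Pool.Agent.helper19.MX.SpecA

set_option autoImplicit false

/-! # MP_a875de, row GNB -/

namespace MX

open Pool.Agent.helper53.AU AN
open scoped Classical Topology

theorem GNB : GNB_stmt := by
  intro L _ _ θ m v hθ hv
  have h5 : (2 : L) = 0 := CharTwo.two_eq_zero
  refine ⟨⟨?_, ?_⟩, ?_⟩
  · show (if (1 : ℕ) = 0 then v ^ 2 * (m + m ^ 4) else if (1 : ℕ) = 1 then v ^ 3 else 0) ≠ 0
    rw [if_neg (by omega), if_pos rfl]
    exact pow_ne_zero 3 hv
  · intro i hi
    show (if i = 0 then v ^ 2 * (m + m ^ 4) else if i = 1 then v ^ 3 else 0) = 0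
    rw [if_neg (by omega), if_neg (by omega)]
  · refine Cert.base _ v (m ^ 2) (m ^ 3) hv ?_ ?_ ?_
    · unfold bb
      simp
    · unfold bb
      simp only [if_true]
      norm_num
      linear_combination v ^ 4 * m ^ 5 * h5
    · rw [hθ]
      ring

end MX
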